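import Pool.Agent.helper66.FO.Spec
import Pool.Agent.helper32.NN.All

/-! Row fo:NFM: a counterexample has, modulo every proper ideal, a multiplication operator of finite nonzero rank. -/

set_option autoImplicit false

open Submodule

noncomputable section

namespace Pool.Agent.FO

open Pool.Agent.NN

universe u v

theorem NFM (hNFS : NFS_stmt.{u, v}) : NFM_stmt.{u, v} := by
  intro K U _ _ _ _ A hA T hT hTA hOp
  obtain ⟨hT1, hT2, hT3⟩ := hT
  obtain ⟨z, hzA, hzT⟩ : ∃ z ∈ A, z ∉ T := by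
    by_contra hcon
    push Not at hcon
    exact hTA (le_antisymm hT1 hcon)
  let P : Type v := {B : Submodule K U // B ≤ A ∧ B.FG ∧ B * B ≤ B ⊔ T ∧ z ∉ B ⊔ T}
  have hstep : ∀ (k : ℕ) (B : P), ∃ B' : P, B.1 ≤ B'.1 ∧ ¬ B'.1 ≤ TT A k := by
    intro k B
    obtain ⟨B', h1, h2, h3, h4, h5, h6⟩ := hNFS K U A hA T ⟨hT1, hT2, hT3⟩ hOp B.1 B.2.1 B.2.2.1
      B.2.2.2.1 z hzA B.2.2.2.2 k
    exact ⟨⟨B', h2, h3, h4, h5⟩, h1, h6⟩
  choose f hf1 hf2 using hstep
  let B₀ : P := ⟨⊥, bot_le, fg_bot, by rw [Submodule.bot_mul]; exact bot_le, by rwa [bot_sup_eq]⟩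
  let B : ℕ → P := fun n => Nat.rec B₀ (fun k b => f k b) n
  have hB : ∀ n, B (n + 1) = f n (B n) := fun n => rfl
  have hmono : Monotone fun n => (B n).1 := by
    apply monotone_nat_of_le_succ
    intro n
    rw [hB]
    exact hf1 n (B n)
  have hsA : (⨆ n, (B n).1) ≤ A := iSup_le fun n => (B n).2.1
  have hSA : (⨆ n, (B n).1) ⊔ T ≤ A := sup_le hsA hT1
  have hSS : ((⨆ n, (B n).1) ⊔ T) * ((⨆ n, (B n).1) ⊔ T) ≤ (⨆ n, (B n).1) ⊔ T := by
    rw [Submodule.sup_mul, Submodule.mul_sup, Submodule.mul_sup]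
    refine sup_le (sup_le ?_ ?_) (sup_le ?_ ?_)
    · rw [Submodule.iSup_mul]
      refine iSup_le fun i => ?_
      rw [Submodule.mul_iSup]
      refine iSup_le fun j => ?_
      have h1 : (B i).1 * (B j).1 ≤ (B (max i j)).1 * (B (max i j)).1 :=
        mul_le_mul' (hmono (le_max_left i j)) (hmono (le_max_right i j))
      refine (h1.trans (B (max i j)).2.2.2.1).trans (sup_le_sup_right ?_ T)
      exact le_iSup (fun n => (B n).1) (max i j)
    · exact ((mul_le_mul' hsA le_rfl).trans hT2).trans le_sup_right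
    · exact ((mul_le_mul' le_rfl hsA).trans hT3).trans le_sup_right
    · exact ((mul_le_mul' hT1 le_rfl).trans hT2).trans le_sup_right
  have hzS : z ∉ (⨆ n, (B n).1) ⊔ T := by
    rw [iSup_sup]
    intro hz
    rw [Submodule.mem_iSup_of_directed _ (Monotone.directed_le fun a b hab =>
      sup_le_sup_right (hmono hab) T)] at hz
    obtain ⟨n, hn⟩ := hz
    exact (B n).2.2.2.2 hn
  have hne : (⨆ n, (B n).1) ⊔ T ≠ A := fun h => hzS (by rw [h]; exact hzA)
  obtain ⟨k, hk⟩ := (all_GEN K U A hA).2.1 _ hSA hSS hne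
  apply hf2 k (B k)
  rw [← hB]
  exact ((le_iSup (fun n => (B n).1) (k + 1)).trans le_sup_left).trans hk

end Pool.Agent.FO
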